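import Mathlib

/-!
Hurwitz' theorem in dimensions 4 and 8, abstract part: unital normed algebras.
(For MP_3b4c52_gt; helper29.)
-/

open Module
open scoped InnerProductSpace Quaternion

noncomputable section

namespace Pool.Agent.Hurw

variable {V : Type*} [NormedAddCommGroup V] [InnerProductSpace ℝ V]

/-- a unital normed product on a real inner product space -/
structure UNA (V : Type*) [NormedAddCommGroup V] [InnerProductSpace ℝ V] where
  mul : V →ₗ[ℝ] V →ₗ[ℝ] V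
  one : V
  one_mul : ∀ x, mul one x = x
  mul_one : ∀ x, mul x one = x
  norm_mul : ∀ x y, ‖mul x y‖ = ‖x‖ * ‖y‖

namespace UNA
variable (A : UNA V)

theorem inner_left (x y z : V) : ⟪A.mul x y, A.mul x z⟫_ℝ = ‖x‖ ^ 2 * ⟪y, z⟫_ℝ := by
  have h := A.norm_mul x (y + z)
  have h1 : ‖A.mul x (y + z)‖ ^ 2 = ‖x‖ ^ 2 * ‖y + z‖ ^ 2 := by rw [h]; ring
  rw [map_add, norm_add_sq_real, norm_add_sq_real, A.norm_mul, A.norm_mul] at h1
  nlinarith [h1]

theorem inner_right (x y z : V) : ⟪A.mul x z, A.mul y z⟫_ℝ = ⟪x, y⟫_ℝ * ‖z‖ ^ 2 := by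
  have h := A.norm_mul (x + y) z
  have h1 : ‖A.mul (x + y) z‖ ^ 2 = ‖x + y‖ ^ 2 * ‖z‖ ^ 2 := by rw [h]; ring
  rw [map_add, LinearMap.add_apply, norm_add_sq_real, norm_add_sq_real, A.norm_mul, A.norm_mul] at h1
  nlinarith [h1]

theorem exchange (x y z w : V) :
    ⟪A.mul x y, A.mul z w⟫_ℝ + ⟪A.mul z y, A.mul x w⟫_ℝ = 2 * ⟪x, z⟫_ℝ * ⟪y, w⟫_ℝ := by
  have h := A.inner_left (x + z) y w
  have h1 := A.inner_left x y w
  have h2 := A.inner_left z y w
  simp only [map_add, LinearMap.add_apply, inner_add_left, inner_add_right] at h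
  rw [norm_add_sq_real] at h
  nlinarith [h, h1, h2]

theorem exchange' (x y z w : V) :
    ⟪A.mul x y, A.mul z w⟫_ℝ + ⟪A.mul x w, A.mul z y⟫_ℝ = 2 * ⟪x, z⟫_ℝ * ⟪y, w⟫_ℝ := by
  have h := A.inner_right x z (y + w)
  have h1 := A.inner_right x z y
  have h2 := A.inner_right x z w
  simp only [map_add, inner_add_left, inner_add_right] at h
  rw [norm_add_sq_real] at h
  nlinarith [h, h1, h2]

/-- conjugation -/
def conj (x : V) : V := (2 * ⟪x, A.one⟫_ℝ) • A.one - x

theorem conj_add (x y : V) : A.conj (x + y) = A.conj x + A.conj y := by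
  simp only [conj, inner_add_left]; module

theorem conj_smul (r : ℝ) (x : V) : A.conj (r • x) = r • A.conj x := by
  simp only [conj, inner_smul_left, RCLike.conj_to_real]; module

theorem conj_neg (x : V) : A.conj (-x) = - A.conj x := by
  simp only [conj, inner_neg_left]; module

theorem conj_sub (x y : V) : A.conj (x - y) = A.conj x - A.conj y := by
  rw [sub_eq_add_neg, conj_add, conj_neg, ← sub_eq_add_neg]

theorem norm_one_of (x : V) (hx : x ≠ 0) : ‖A.one‖ = 1 := by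
  have h := A.norm_mul A.one x
  rw [A.one_mul] at h
  have : ‖x‖ ≠ 0 := norm_ne_zero_iff.mpr hx
  field_simp at h
  linarith [h]

theorem norm_one_sq (x : V) : ‖A.one‖ ^ 2 • x = x := by
  by_cases hx : x = 0
  · simp [hx]
  · rw [A.norm_one_of x hx]; simp

theorem conj_conj (x : V) : A.conj (A.conj x) = x := by
  by_cases hx : x = 0
  · simp [hx, conj]
  have h1 := A.norm_one_of x hx
  simp only [conj, inner_sub_left, inner_smul_left, real_inner_self_eq_norm_sq, h1,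
    RCLike.conj_to_real]
  module

theorem adj_left (x y z : V) : ⟪A.mul x y, z⟫_ℝ = ⟪y, A.mul (A.conj x) z⟫_ℝ := by
  have h := A.exchange x y A.one z
  rw [A.one_mul, A.one_mul] at h
  simp only [conj, map_sub, map_smul, LinearMap.sub_apply, LinearMap.smul_apply, A.one_mul,
    inner_sub_right, inner_smul_right]
  linarith

theorem adj_right (x y z : V) : ⟪A.mul x y, z⟫_ℝ = ⟪x, A.mul z (A.conj y)⟫_ℝ := by
  have h := A.exchange x y z A.one
  rw [A.mul_one, A.mul_one] at h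
  simp only [conj, map_sub, map_smul, A.mul_one, inner_sub_right, inner_smul_right]
  have h5 := real_inner_comm x (A.mul z y)
  linarith

theorem adj_left' (x y z : V) : ⟪A.mul (A.conj x) y, z⟫_ℝ = ⟪y, A.mul x z⟫_ℝ := by
  rw [adj_left, conj_conj]

theorem adj_right' (x y z : V) : ⟪A.mul x (A.conj y), z⟫_ℝ = ⟪x, A.mul z y⟫_ℝ := by
  rw [adj_right, conj_conj]

theorem conj_mul_mul (x y : V) : A.mul (A.conj x) (A.mul x y) = ‖x‖ ^ 2 • y := by
  refine ext_inner_right ℝ fun z => ?_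
  rw [adj_left', inner_left, inner_smul_left]; simp

theorem mul_mul_conj (x y : V) : A.mul (A.mul x y) (A.conj y) = ‖y‖ ^ 2 • x := by
  refine ext_inner_right ℝ fun z => ?_
  rw [adj_right', inner_right, inner_smul_left]; simp [mul_comm]

theorem conj_inner (x y : V) : ⟪A.conj x, y⟫_ℝ = ⟪x, A.conj y⟫_ℝ := by
  simp only [conj, inner_sub_left, inner_sub_right, inner_smul_left, inner_smul_right,
    RCLike.conj_to_real]
  rw [real_inner_comm A.one y]
  ring

theorem conj_mul (x y : V) : A.conj (A.mul x y) = A.mul (A.conj y) (A.conj x) := by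
  refine ext_inner_right ℝ fun z => ?_
  -- both sides are `⟪y, conj x * conj z⟫`
  have h1 : ⟪A.conj (A.mul x y), z⟫_ℝ = ⟪y, A.mul (A.conj x) (A.conj z)⟫_ℝ := by
    rw [conj_inner, adj_left]
  have h2 : ⟪A.mul (A.conj y) (A.conj x), z⟫_ℝ = ⟪A.conj x, A.mul y z⟫_ℝ := adj_left' A _ _ _
  have h3 : ⟪A.conj x, A.mul y z⟫_ℝ = ⟪y, A.mul (A.conj x) (A.conj z)⟫_ℝ := by
    rw [real_inner_comm, adj_right]
  rw [h1, h2, h3]

theorem norm_conj (x : V) : ‖A.conj x‖ = ‖x‖ := by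
  have h : ‖A.conj x‖ ^ 2 = ‖x‖ ^ 2 := by
    rw [← real_inner_self_eq_norm_sq, conj_inner, conj_conj, real_inner_self_eq_norm_sq]
  exact (sq_eq_sq₀ (norm_nonneg _) (norm_nonneg _)).mp h

theorem conj_one : A.conj A.one = A.one := by
  by_cases h : A.one = 0
  · simp [conj, h]
  · simp only [conj, real_inner_self_eq_norm_sq, A.norm_one_of A.one h]; module

/-- linearised identities -/
theorem lin_left (x z y : V) :
    A.mul (A.conj x) (A.mul z y) + A.mul (A.conj z) (A.mul x y) = (2 * ⟪x, z⟫_ℝ) • y := by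
  have h := A.conj_mul_mul (x + z) y
  have h1 := A.conj_mul_mul x y
  have h2 := A.conj_mul_mul z y
  simp only [conj_add, map_add, LinearMap.add_apply] at h
  rw [h1, h2, norm_add_sq_real] at h
  have h3 : ∀ a b : V, ‖x‖ ^ 2 • y + a + (b + ‖z‖ ^ 2 • y) = (‖x‖ ^ 2 + 2 * ⟪x, z⟫_ℝ + ‖z‖ ^ 2) • y →
      b + a = (2 * ⟪x, z⟫_ℝ) • y := by
    intro a b hab
    have : b + a = (‖x‖ ^ 2 • y + a + (b + ‖z‖ ^ 2 • y)) - ‖x‖ ^ 2 • y - ‖z‖ ^ 2 • y := by abel
    rw [this, hab]; module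
  apply h3
  rw [← h]

theorem lin_right (y x z : V) :
    A.mul (A.mul y x) (A.conj z) + A.mul (A.mul y z) (A.conj x) = (2 * ⟪x, z⟫_ℝ) • y := by
  have h := A.mul_mul_conj y (x + z)
  have h1 := A.mul_mul_conj y x
  have h2 := A.mul_mul_conj y z
  simp only [conj_add, map_add, LinearMap.add_apply] at h
  rw [h1, h2, norm_add_sq_real] at h
  have h3 : ∀ a b : V, ‖x‖ ^ 2 • y + a + (b + ‖z‖ ^ 2 • y) = (‖x‖ ^ 2 + 2 * ⟪x, z⟫_ℝ + ‖z‖ ^ 2) • y →
      b + a = (2 * ⟪x, z⟫_ℝ) • y := by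
    intro a b hab
    have : b + a = (‖x‖ ^ 2 • y + a + (b + ‖z‖ ^ 2 • y)) - ‖x‖ ^ 2 • y - ‖z‖ ^ 2 • y := by abel
    rw [this, hab]; module
  apply h3
  rw [← h]

theorem conj_of_orth {l : V} (hl : ⟪l, A.one⟫_ℝ = 0) : A.conj l = - l := by
  simp [conj, hl]

/-- imaginary units square to `-1` -/
theorem sq_of_orth {l : V} (hl : ⟪l, A.one⟫_ℝ = 0) (h1 : ‖l‖ = 1) : A.mul l l = - A.one := by
  have h := A.conj_mul_mul l A.one
  rw [A.mul_one, A.conj_of_orth hl, h1] at h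
  simp only [map_neg, LinearMap.neg_apply, one_pow, one_smul] at h
  rw [← h]; simp

theorem anti_of_orth {x y : V} (hx : ⟪x, A.one⟫_ℝ = 0) (hy : ⟪y, A.one⟫_ℝ = 0) (hxy : ⟪x, y⟫_ℝ = 0) :
    A.mul y x = - A.mul x y := by
  have h := A.lin_left x y A.one
  rw [A.mul_one, A.mul_one, A.conj_of_orth hx, A.conj_of_orth hy, hxy] at h
  simp only [map_neg, LinearMap.neg_apply, mul_zero, zero_smul] at h
  have : A.mul y x = - A.mul x y - (-A.mul x y + -A.mul y x) := by abel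
  rw [this, h]; simp

theorem mul_mul_self_left {l : V} (hl : ⟪l, A.one⟫_ℝ = 0) (h1 : ‖l‖ = 1) (y : V) :
    A.mul l (A.mul l y) = - y := by
  have h := A.conj_mul_mul l y
  rw [A.conj_of_orth hl, h1] at h
  simp only [map_neg, LinearMap.neg_apply, one_pow, one_smul] at h
  exact neg_eq_iff_eq_neg.mp h

theorem mul_mul_self_right {l : V} (hl : ⟪l, A.one⟫_ℝ = 0) (h1 : ‖l‖ = 1) (y : V) :
    A.mul (A.mul y l) l = - y := by
  have h := A.mul_mul_conj y l
  rw [A.conj_of_orth hl, h1] at h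
  simp only [map_neg, one_pow, one_smul] at h
  exact neg_eq_iff_eq_neg.mp h

/-! ### Cayley–Dickson doubling -/

section Doubling
variable {B : Submodule ℝ V} (hB1 : A.one ∈ B) (hBm : ∀ x ∈ B, ∀ y ∈ B, A.mul x y ∈ B)
  {l : V} (hl : ∀ b ∈ B, ⟪l, b⟫_ℝ = 0) (hl1 : ‖l‖ = 1)

include hB1 in
theorem conj_mem {b : V} (hb : b ∈ B) : A.conj b ∈ B :=
  B.sub_mem (B.smul_mem _ hB1) hb

include hB1 hl in
theorem mul_comm_l {b : V} (hb : b ∈ B) : A.mul l (A.conj b) = A.mul b l := by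
  have h1 : ⟪A.mul b l, A.one⟫_ℝ = 0 := by
    rw [adj_left, A.mul_one]; exact hl _ (A.conj_mem hB1 hb)
  have h2 := A.conj_mul b l
  rw [A.conj_of_orth h1, A.conj_of_orth (hl _ hB1)] at h2
  simp only [map_neg, LinearMap.neg_apply, neg_inj] at h2
  exact h2.symm

include hB1 hBm hl in
theorem dbl1 {a d : V} (ha : a ∈ B) (hd : d ∈ B) :
    A.mul a (A.mul d l) = A.mul (A.mul d a) l := by
  have h := A.lin_left (A.conj a) l (A.conj d)
  rw [A.conj_conj, A.mul_comm_l hB1 hl hd, real_inner_comm, hl _ (A.conj_mem hB1 ha),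
    A.conj_of_orth (hl _ hB1), ← A.conj_mul] at h
  simp only [map_neg, LinearMap.neg_apply, mul_zero, zero_smul] at h
  rw [A.mul_comm_l hB1 hl (hBm _ hd _ ha)] at h
  have : A.mul a (A.mul d l) = (A.mul a (A.mul d l) + -A.mul (A.mul d a) l) + A.mul (A.mul d a) l := by
    abel
  rw [this, h, zero_add]

include hB1 hl in
theorem dbl2 {b c : V} (_hb : b ∈ B) (hc : c ∈ B) :
    A.mul (A.mul b l) c = A.mul (A.mul b (A.conj c)) l := by
  have h := A.lin_right b l (A.conj c)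
  rw [A.conj_conj, hl _ (A.conj_mem hB1 hc), A.conj_of_orth (hl _ hB1)] at h
  simp only [map_neg, mul_zero, zero_smul] at h
  have : A.mul (A.mul b l) c = (A.mul (A.mul b l) c + -A.mul (A.mul b (A.conj c)) l)
      + A.mul (A.mul b (A.conj c)) l := by abel
  rw [this, h, zero_add]

include hB1 hBm hl hl1 in
theorem dbl3 {b d : V} (hb : b ∈ B) (hd : d ∈ B) :
    A.mul (A.mul b l) (A.mul d l) = - A.mul (A.conj d) b := by
  have hdl : ⟪A.mul d l, A.one⟫_ℝ = 0 := by
    rw [adj_left, A.mul_one]; exact hl _ (A.conj_mem hB1 hd)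
  have h := A.lin_right b l (A.mul d l)
  rw [A.conj_of_orth hdl, A.conj_of_orth (hl _ hB1), A.dbl1 hB1 hBm hl hb hd] at h
  simp only [map_neg] at h
  rw [A.mul_mul_self_right (hl _ hB1) hl1] at h
  have h4 : ⟪l, A.mul d l⟫_ℝ = ⟪d, A.one⟫_ℝ := by
    have := A.inner_right A.one d l
    rw [A.one_mul, hl1] at this
    rw [this, real_inner_comm]; ring
  rw [h4] at h
  have h5 : A.mul (A.mul b l) (A.mul d l) = - ((-A.mul (A.mul b l) (A.mul d l) + - -A.mul d b))
      + A.mul d b := by abel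
  rw [h5, h]
  simp only [conj, map_sub, map_smul, LinearMap.sub_apply, LinearMap.smul_apply, A.one_mul]
  module

end Doubling

end UNA

/-! ### existence of orthogonal unit vectors -/

theorem exists_unit_orth [FiniteDimensional ℝ V] (S : Submodule ℝ V) (h : finrank ℝ S < finrank ℝ V) :
    ∃ l : V, ‖l‖ = 1 ∧ ∀ b ∈ S, ⟪l, b⟫_ℝ = 0 := by
  have hne : Sᗮ ≠ ⊥ := by
    intro hbot
    have := Submodule.finrank_add_finrank_orthogonal S
    rw [hbot, finrank_bot] at this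
    omega
  obtain ⟨v, hv, hv0⟩ := Submodule.exists_mem_ne_zero_of_ne_bot hne
  refine ⟨(‖v‖⁻¹ : ℝ) • v, ?_, ?_⟩
  · rw [norm_smul, norm_inv, norm_norm, inv_mul_cancel₀ (norm_ne_zero_iff.mpr hv0)]
  · intro b hb
    rw [inner_smul_left, real_inner_comm, (Submodule.mem_orthogonal S v).mp hv b hb, mul_zero]

theorem exists_unit_orth_finset [FiniteDimensional ℝ V] (s : Finset V) (h : s.card < finrank ℝ V) :
    ∃ l : V, ‖l‖ = 1 ∧ ∀ b ∈ s, ⟪l, b⟫_ℝ = 0 := by
  obtain ⟨l, h1, h2⟩ := exists_unit_orth (Submodule.span ℝ (s : Set V))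
    (lt_of_le_of_lt (finrank_span_finset_le_card s) h)
  exact ⟨l, h1, fun b hb => h2 b (Submodule.subset_span hb)⟩

end Pool.Agent.Hurw
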