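import Pool.Agent.Lib_helper29.TP.HurwitzQ
import Pool.Agent.Lib_helper39.TP.Stmt

/-!
MP_3b4c52_gt, block B: composition algebra structures on `ℝ⁴`, `ℝ⁸` and Hurwitz' theorem.
-/

open Module
open scoped InnerProductSpace Quaternion

noncomputable section

namespace Pool.Agent.TP

open Pool.Agent.Hurw

/-- conjugation as an isometry -/
def CA.cE {d : ℕ} (A : CA d) : Vd d ≃ₗᵢ[ℝ] Vd d where
  toFun := A.c
  invFun := A.c
  map_add' := map_add A.c
  map_smul' := map_smul A.c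
  left_inv := A.c_c
  right_inv := A.c_c
  norm_map' := A.norm_c

theorem hur_of {d : ℕ} (hd : 1 ≤ d) (A : CA d)
    (h : ∀ U : UNA (Vd d), ∃ Ψ : Vd d →ₗᵢ[ℝ] Vd d, ∀ x y, Ψ (A.m x y) = U.mul (Ψ x) (Ψ y)) :
    Hur A := by
  intro F hF
  set e : Vd d := EuclideanSpace.single (⟨0, by omega⟩ : Fin d) (1 : ℝ) with he
  have he1 : ‖e‖ = 1 := by rw [he]; simp
  let R0 : Vd d →ₗᵢ[ℝ] Vd d := ⟨(F.flip e).toLinearMap, fun a => by
    show ‖F a e‖ = ‖a‖
    rw [hF, he1, mul_one]⟩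
  let L0 : Vd d →ₗᵢ[ℝ] Vd d := ⟨(F e).toLinearMap, fun a => by
    show ‖F e a‖ = ‖a‖
    rw [hF, he1, one_mul]⟩
  let R := R0.toLinearIsometryEquiv rfl
  let L := L0.toLinearIsometryEquiv rfl
  have hR : ∀ a, R a = F a e := fun a => rfl
  have hL : ∀ a, L a = F e a := fun a => rfl
  let U : UNA (Vd d) :=
    { mul := LinearMap.mk₂ ℝ (fun x y => F (R.symm x) (L.symm y))
        (fun x y z => by simp) (fun r x y => by simp) (fun x y z => by simp) (fun r x y => by simp)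
      one := F e e
      one_mul := fun x => by
        show F (R.symm (F e e)) (L.symm x) = x
        rw [← hR e, R.symm_apply_apply, ← hL, L.apply_symm_apply]
      mul_one := fun x => by
        show F (R.symm x) (L.symm (F e e)) = x
        rw [← hL e, L.symm_apply_apply, ← hR, R.apply_symm_apply]
      norm_mul := fun x y => by
        show ‖F (R.symm x) (L.symm y)‖ = _
        rw [hF, R.symm.norm_map, L.symm.norm_map] }
  obtain ⟨Ψ0, hΨ⟩ := h U
  let Ψ := Ψ0.toLinearIsometryEquiv rfl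
  have hΨ' : ∀ x y, Ψ (A.m x y) = U.mul (Ψ x) (Ψ y) := hΨ
  refine ⟨(R.trans Ψ.symm).trans A.cE, L.trans Ψ.symm, Ψ.symm, fun a b => ?_⟩
  show Ψ.symm (F a b) = A.m (A.c (A.c (Ψ.symm (R a)))) (Ψ.symm (L b))
  rw [A.c_c, Ψ.symm_apply_eq, hΨ', Ψ.apply_symm_apply, Ψ.apply_symm_apply]
  show F a b = F (R.symm (R a)) (L.symm (L b))
  rw [R.symm_apply_apply, L.symm_apply_apply]

/-- data on an algebra `K` from which a `CA` is built -/
theorem exists_CA {d : ℕ} (hd : 1 ≤ d) (K : Type) [NonAssocRing K] [StarRing K] [Module ℝ K]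
    [StarModule ℝ K] (hsm : ∀ (r : ℝ) (x y : K), (r • x) * y = r • (x * y))
    (hms : ∀ (r : ℝ) (x y : K), x * (r • y) = r • (x * y)) (ι : K ≃ₗ[ℝ] Vd d)
    (hn : ∀ x y, ‖ι (x * y)‖ = ‖ι x‖ * ‖ι y‖) (hs : ∀ x, ‖ι (star x)‖ = ‖ι x‖)
    (h1 : ∀ x y, x * (star x * y) = ‖ι x‖ ^ 2 • y)
    (hU : ∀ U : UNA (Vd d), ∃ Φ : K →ₗ[ℝ] Vd d, (∀ x, ‖Φ x‖ = ‖ι x‖) ∧
      ∀ x y, Φ (x * y) = U.mul (Φ x) (Φ y)) :
    ∃ (A : CA d), (∀ x y, ι (x * y) = A.m (ι x) (ι y)) ∧
      (∀ x, ι (star x) = A.c (ι x)) ∧ (∀ x, star x * x = (‖ι x‖ ^ 2) • (1 : K)) ∧ Hur A := by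
  have h2 : ∀ x y, star x * (x * y) = ‖ι x‖ ^ 2 • y := fun x y => by
    have := h1 (star x) y
    rw [star_star, hs] at this
    exact this
  have h3 : ∀ x y, (y * x) * star x = ‖ι x‖ ^ 2 • y := fun x y => by
    have := congrArg star (h1 x (star y))
    rw [star_mul, star_mul, star_star, star_star, star_smul, star_star, star_trivial (‖ι x‖ ^ 2)] at this
    exact this
  have h4 : ∀ x y, (y * star x) * x = ‖ι x‖ ^ 2 • y := fun x y => by
    have := congrArg star (h2 x (star y))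
    rw [star_mul, star_mul, star_star, star_star, star_smul, star_star, star_trivial (‖ι x‖ ^ 2)] at this
    exact this
  let m0 : Vd d →ₗ[ℝ] Vd d →ₗ[ℝ] Vd d :=
    LinearMap.mk₂ ℝ (fun x y => ι (ι.symm x * ι.symm y))
        (fun x y z => by simp [add_mul]) (fun r x y => by simp [hsm])
        (fun x y z => by simp [mul_add]) (fun r x y => by simp [hms])
  let c0 : Vd d →ₗ[ℝ] Vd d :=
    { toFun := fun x => ι (star (ι.symm x))
      map_add' := fun x y => by simp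
      map_smul' := fun r x => by simp [star_smul] }
  let m : Vd d →L[ℝ] Vd d →L[ℝ] Vd d :=
    LinearMap.toContinuousLinearMap ((LinearMap.toContinuousLinearMap :
      (Vd d →ₗ[ℝ] Vd d) ≃ₗ[ℝ] (Vd d →L[ℝ] Vd d)).toLinearMap ∘ₗ m0)
  let c : Vd d →L[ℝ] Vd d := LinearMap.toContinuousLinearMap c0
  have hm : ∀ x y, m x y = ι (ι.symm x * ι.symm y) := fun x y => rfl
  have hc : ∀ x, c x = ι (star (ι.symm x)) := fun x => rfl
  let A : CA d :=
    { m := m
      c := c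
      norm_m := fun a b => by rw [hm, hn]; simp
      norm_c := fun a => by rw [hc, hs]; simp
      c_c := fun a => by rw [hc, hc]; simp
      c_m := fun a b => by rw [hc, hc, hc, hm, hm]; simp
      m_left := fun a b => by rw [hc, hm, hm]; simp [h1]
      m_left' := fun a b => by rw [hc, hm, hm]; simp [h2]
      m_right := fun a b => by rw [hc, hm, hm]; simp [h3]
      m_right' := fun a b => by rw [hc, hm, hm]; simp [h4] }
  refine ⟨A, fun x y => ?_, fun x => ?_, fun x => ?_, ?_⟩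
  · show _ = m (ι x) (ι y)
    rw [hm]; simp
  · show _ = c (ι x)
    rw [hc]; simp
  · have := h2 x 1
    rwa [mul_one] at this
  · refine hur_of hd A fun U => ?_
    obtain ⟨Φ, hΦn, hΦ⟩ := hU U
    refine ⟨⟨Φ ∘ₗ ι.symm.toLinearMap, fun x => ?_⟩, fun x y => ?_⟩
    · show ‖Φ (ι.symm x)‖ = ‖x‖
      rw [hΦn]; simp
    · show Φ (ι.symm (m x y)) = U.mul (Φ (ι.symm x)) (Φ (ι.symm y))
      rw [hm, ← hΦ]; simp

instance instStarModuleQuaternion : StarModule ℝ ℍ[ℝ] := ⟨fun r x => by rw [Quaternion.star_smul]; simp⟩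

instance instSMulCommClassOct : SMulCommClass ℝ Oct Oct :=
  ⟨fun r x y => by
    show r • (x * y) = x * (r • y)
    ext1 <;> simp [smul_sub, smul_add]⟩

instance instIsScalarTowerOct : IsScalarTower ℝ Oct Oct :=
  ⟨fun r x y => by
    show (r • x) * y = r • (x * y)
    ext1 <;> simp [smul_sub, smul_add]⟩

/-- (B1) -/
theorem exists_CA_quaternion :
    ∃ (A : CA 4) (ι : ℍ[ℝ] ≃ₗ[ℝ] Vd 4), (∀ x y, ι (x * y) = A.m (ι x) (ι y)) ∧
      (∀ x, ι (star x) = A.c (ι x)) ∧ (∀ x, star x * x = (‖ι x‖ ^ 2) • (1 : ℍ[ℝ])) ∧ Hur A := by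
  have hι : ∀ x : ℍ[ℝ], ‖Quaternion.linearIsometryEquivTuple x‖ = ‖x‖ :=
    fun x => Quaternion.linearIsometryEquivTuple.norm_map x
  obtain ⟨A, hA⟩ := exists_CA (d := 4) (by norm_num) ℍ[ℝ] (fun r x y => by simp) (fun r x y => by simp)
    Quaternion.linearIsometryEquivTuple.toLinearEquiv
    (fun x y => by
      show ‖Quaternion.linearIsometryEquivTuple _‖ = ‖Quaternion.linearIsometryEquivTuple _‖ *
        ‖Quaternion.linearIsometryEquivTuple _‖
      rw [hι, hι, hι, norm_mul])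
    (fun x => by
      show ‖Quaternion.linearIsometryEquivTuple _‖ = ‖Quaternion.linearIsometryEquivTuple _‖
      rw [hι, hι, norm_star])
    (fun x y => by
      show _ = ‖Quaternion.linearIsometryEquivTuple _‖ ^ 2 • y
      rw [hι, ← mul_assoc, Quaternion.self_mul_star, Quaternion.normSq_eq_norm_mul_self,
        Quaternion.coe_mul_eq_smul, sq])
    (fun U => by
      obtain ⟨φ, -, hφ, -⟩ := exists_quat U (by simp)
      refine ⟨φ.toLinearMap, fun x => ?_, hφ⟩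
      show ‖φ x‖ = ‖Quaternion.linearIsometryEquivTuple _‖
      rw [hι, φ.norm_map])
  exact ⟨A, _, hA⟩

/-- coordinates on the octonions -/
def octCoord : Oct ≃ₗ[ℝ] Vd 8 where
  toFun x := WithLp.toLp 2 ![x.1.re, x.1.imI, x.1.imJ, x.1.imK, x.2.re, x.2.imI, x.2.imJ, x.2.imK]
  invFun v := (⟨v 0, v 1, v 2, v 3⟩, ⟨v 4, v 5, v 6, v 7⟩)
  map_add' x y := by
    ext i; fin_cases i <;> simp
  map_smul' r x := by
    ext i; fin_cases i <;> simp
  left_inv x := by rfl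
  right_inv v := by
    ext i; fin_cases i <;> rfl

theorem octCoord_norm_sq (x : Oct) : ‖octCoord x‖ ^ 2 =
    x.1.re ^ 2 + x.1.imI ^ 2 + x.1.imJ ^ 2 + x.1.imK ^ 2 +
    (x.2.re ^ 2 + x.2.imI ^ 2 + x.2.imJ ^ 2 + x.2.imK ^ 2) := by
  rw [EuclideanSpace.norm_sq_eq, Fin.sum_univ_eight]
  simp only [Real.norm_eq_abs, sq_abs]
  show x.1.re ^ 2 + x.1.imI ^ 2 + x.1.imJ ^ 2 + x.1.imK ^ 2 +
    x.2.re ^ 2 + x.2.imI ^ 2 + x.2.imJ ^ 2 + x.2.imK ^ 2 = _
  ring

theorem octCoord_norm_sq' (x : Oct) : ‖octCoord x‖ ^ 2 = ‖x.1‖ ^ 2 + ‖x.2‖ ^ 2 := by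
  rw [octCoord_norm_sq, quat_norm_sq, quat_norm_sq]

theorem oct_norm_mul (x y : Oct) : ‖octCoord (x * y)‖ = ‖octCoord x‖ * ‖octCoord y‖ := by
  have h : ‖octCoord (x * y)‖ ^ 2 = (‖octCoord x‖ * ‖octCoord y‖) ^ 2 := by
    rw [mul_pow, octCoord_norm_sq, octCoord_norm_sq, octCoord_norm_sq]
    simp only [Oct.mul_fst, Oct.mul_snd, Quaternion.re_sub, Quaternion.imI_sub, Quaternion.imJ_sub,
      Quaternion.imK_sub, Quaternion.re_add, Quaternion.imI_add, Quaternion.imJ_add,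
      Quaternion.imK_add, Quaternion.re_mul, Quaternion.imI_mul, Quaternion.imJ_mul,
      Quaternion.imK_mul, Quaternion.re_star, Quaternion.imI_star, Quaternion.imJ_star,
      Quaternion.imK_star]
    ring
  exact (sq_eq_sq₀ (norm_nonneg _) (by positivity)).mp h

theorem oct_norm_star (x : Oct) : ‖octCoord (star x)‖ = ‖octCoord x‖ := by
  have h : ‖octCoord (star x)‖ ^ 2 = ‖octCoord x‖ ^ 2 := by
    rw [octCoord_norm_sq', octCoord_norm_sq']
    simp
  exact (sq_eq_sq₀ (norm_nonneg _) (norm_nonneg _)).mp h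

theorem oct_mul_star_mul (x y : Oct) : x * (star x * y) = ‖octCoord x‖ ^ 2 • y := by
  rw [octCoord_norm_sq]
  ext1
  · simp only [Oct.mul_fst, Oct.mul_snd, Oct.star_fst, Oct.star_snd, Oct.smul_fst]
    ext <;>
    simp only [Quaternion.re_sub, Quaternion.imI_sub, Quaternion.imJ_sub,
      Quaternion.imK_sub, Quaternion.re_add, Quaternion.imI_add, Quaternion.imJ_add,
      Quaternion.imK_add, Quaternion.re_mul, Quaternion.imI_mul, Quaternion.imJ_mul,
      Quaternion.imK_mul, Quaternion.re_star, Quaternion.imI_star, Quaternion.imJ_star,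
      Quaternion.imK_star, Quaternion.re_neg, Quaternion.imI_neg, Quaternion.imJ_neg,
      Quaternion.imK_neg, Quaternion.re_smul, Quaternion.imI_smul, Quaternion.imJ_smul,
      Quaternion.imK_smul, smul_eq_mul] <;> ring
  · simp only [Oct.mul_fst, Oct.mul_snd, Oct.star_fst, Oct.star_snd, Oct.smul_snd]
    ext <;>
    simp only [Quaternion.re_sub, Quaternion.imI_sub, Quaternion.imJ_sub,
      Quaternion.imK_sub, Quaternion.re_add, Quaternion.imI_add, Quaternion.imJ_add,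
      Quaternion.imK_add, Quaternion.re_mul, Quaternion.imI_mul, Quaternion.imJ_mul,
      Quaternion.imK_mul, Quaternion.re_star, Quaternion.imI_star, Quaternion.imJ_star,
      Quaternion.imK_star, Quaternion.re_neg, Quaternion.imI_neg, Quaternion.imJ_neg,
      Quaternion.imK_neg, Quaternion.re_smul, Quaternion.imI_smul, Quaternion.imJ_smul,
      Quaternion.imK_smul, smul_eq_mul] <;> ring

/-- (B2) -/
theorem exists_CA_octonion :
    ∃ (A : CA 8) (ι : Oct ≃ₗ[ℝ] Vd 8), (∀ x y, ι (x * y) = A.m (ι x) (ι y)) ∧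
      (∀ x, ι (star x) = A.c (ι x)) ∧ (∀ x, star x * x = (‖ι x‖ ^ 2) • (1 : Oct)) ∧ Hur A := by
  obtain ⟨A, hA⟩ := exists_CA (d := 8) (by norm_num) Oct
    (fun r x y => by ext1 <;> simp [smul_sub, smul_add])
    (fun r x y => by ext1 <;> simp [smul_sub, smul_add])
    octCoord oct_norm_mul oct_norm_star oct_mul_star_mul
    (fun U => by
      obtain ⟨Φ, hΦ1, hΦ2⟩ := exists_oct U (by simp)
      refine ⟨Φ, fun x => ?_, hΦ2⟩
      have h : ‖Φ x‖ ^ 2 = ‖octCoord x‖ ^ 2 := (hΦ1 x).trans (octCoord_norm_sq' x).symm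
      exact (sq_eq_sq₀ (norm_nonneg _) (norm_nonneg _)).mp h)
  exact ⟨A, _, hA⟩

end Pool.Agent.TP
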