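import Pool.Agent.Lib_helper29.TP.Hurwitz

/-!
Hurwitz' theorem in dimensions 4 and 8: embeddings of quaternions and octonions in unital
normed algebras.
-/

open Module
open scoped InnerProductSpace Quaternion

noncomputable section

namespace Pool.Agent.Hurw

variable {V : Type*} [NormedAddCommGroup V] [InnerProductSpace ℝ V] [FiniteDimensional ℝ V]

theorem quat_norm_sq (q : ℍ[ℝ]) : ‖q‖ ^ 2 = q.re ^ 2 + q.imI ^ 2 + q.imJ ^ 2 + q.imK ^ 2 := by
  have h := Quaternion.normSq_eq_norm_mul_self q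
  rw [Quaternion.normSq_def'] at h
  rw [h]; ring

/-- the linear map `q ↦ q₀ 1 + q₁ i + q₂ j + q₃ k` -/
def qmap (e i j k : V) : ℍ[ℝ] →ₗ[ℝ] V where
  toFun q := q.re • e + q.imI • i + q.imJ • j + q.imK • k
  map_add' x y := by simp only [Quaternion.re_add, Quaternion.imI_add, Quaternion.imJ_add, Quaternion.imK_add]; module
  map_smul' r x := by
    simp only [Quaternion.re_smul, Quaternion.imI_smul, Quaternion.imJ_smul, Quaternion.imK_smul,
      smul_eq_mul, RingHom.id_apply]; module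

theorem qmap_apply (e i j k : V) (q : ℍ[ℝ]) :
    qmap e i j k q = q.re • e + q.imI • i + q.imJ • j + q.imK • k := rfl

theorem exists_quat (A : UNA V) (h : 4 ≤ finrank ℝ V) :
    ∃ φ : ℍ[ℝ] →ₗᵢ[ℝ] V, φ 1 = A.one ∧ (∀ x y, φ (x * y) = A.mul (φ x) (φ y)) ∧
      (∀ x, φ (star x) = A.conj (φ x)) := by
  obtain ⟨v, hv⟩ : ∃ v : V, v ≠ 0 := by
    haveI : Nontrivial V := Module.nontrivial_of_finrank_pos (R := ℝ) (by omega)
    exact exists_ne 0
  have h1 : ‖A.one‖ = 1 := A.norm_one_of v hv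
  obtain ⟨i, hi1, hi⟩ := exists_unit_orth_finset (V := V) {A.one} (by simp; omega)
  have hi0 : ⟪i, A.one⟫_ℝ = 0 := hi _ (by simp)
  classical
  obtain ⟨j, hj1, hj⟩ := exists_unit_orth_finset (V := V) {A.one, i}
    (lt_of_le_of_lt Finset.card_le_two (by omega))
  have hj0 : ⟪j, A.one⟫_ℝ = 0 := hj _ (by simp)
  have hji : ⟪j, i⟫_ℝ = 0 := hj _ (by simp)
  have hij : ⟪i, j⟫_ℝ = 0 := by rw [real_inner_comm]; exact hji
  set k := A.mul i j with hk
  have hk1 : ‖k‖ = 1 := by rw [hk, A.norm_mul, hi1, hj1, one_mul]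
  have hk0 : ⟪k, A.one⟫_ℝ = 0 := by
    rw [hk, A.adj_left, A.mul_one, A.conj_of_orth hi0, inner_neg_right, hji, neg_zero]
  have hki : ⟪k, i⟫_ℝ = 0 := by
    have := A.inner_left i j A.one
    rw [A.mul_one, hj0, mul_zero] at this; exact this
  have hkj : ⟪k, j⟫_ℝ = 0 := by
    have := A.inner_right i A.one j
    rw [A.one_mul, hi0, zero_mul] at this; exact this
  have hik' : ⟪i, k⟫_ℝ = 0 := by rw [real_inner_comm]; exact hki
  have hjk' : ⟪j, k⟫_ℝ = 0 := by rw [real_inner_comm]; exact hkj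
  have h0i : ⟪A.one, i⟫_ℝ = 0 := by rw [real_inner_comm]; exact hi0
  have h0j : ⟪A.one, j⟫_ℝ = 0 := by rw [real_inner_comm]; exact hj0
  have h0k : ⟪A.one, k⟫_ℝ = 0 := by rw [real_inner_comm]; exact hk0
  -- multiplication table
  have tii : A.mul i i = - A.one := A.sq_of_orth hi0 hi1
  have tjj : A.mul j j = - A.one := A.sq_of_orth hj0 hj1
  have tkk : A.mul k k = - A.one := A.sq_of_orth hk0 hk1
  have tji : A.mul j i = - k := A.anti_of_orth hi0 hj0 hij
  have tik : A.mul i k = - j := by rw [hk]; exact A.mul_mul_self_left hi0 hi1 j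
  have tkj : A.mul k j = - i := by rw [hk]; exact A.mul_mul_self_right hj0 hj1 i
  have tki : A.mul k i = j := by rw [A.anti_of_orth hi0 hk0 hik', tik, neg_neg]
  have tjk : A.mul j k = i := by rw [A.anti_of_orth hk0 hj0 hkj, tkj, neg_neg]
  have hnorm : ∀ q, ‖qmap A.one i j k q‖ = ‖q‖ := by
    intro q
    have : ‖qmap A.one i j k q‖ ^ 2 = ‖q‖ ^ 2 := by
      rw [quat_norm_sq, ← real_inner_self_eq_norm_sq, qmap_apply]
      simp only [inner_add_left, inner_add_right, inner_smul_left, inner_smul_right,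
        real_inner_self_eq_norm_sq, h1, hi1, hj1, hk1, h0i, h0j, h0k, hi0, hj0, hk0, hij, hji,
        hki, hkj, hik', hjk', RCLike.conj_to_real]
      ring
    exact (sq_eq_sq₀ (norm_nonneg _) (norm_nonneg _)).mp this
  refine ⟨⟨qmap A.one i j k, hnorm⟩, ?_, ?_, ?_⟩
  · show qmap A.one i j k 1 = _
    simp [qmap_apply]
  · intro x y
    show qmap A.one i j k (x * y) = A.mul (qmap A.one i j k x) (qmap A.one i j k y)
    simp only [qmap_apply, map_add, map_smul, LinearMap.add_apply, LinearMap.smul_apply,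
      A.one_mul, A.mul_one, tii, tjj, tkk, tji, tik, tkj, tki, tjk, ← hk,
      Quaternion.re_mul, Quaternion.imI_mul, Quaternion.imJ_mul, Quaternion.imK_mul]
    module
  · intro x
    show qmap A.one i j k (star x) = A.conj (qmap A.one i j k x)
    simp only [qmap_apply, A.conj_add, A.conj_smul, A.conj_one, A.conj_of_orth hi0,
      A.conj_of_orth hj0, A.conj_of_orth hk0, Quaternion.re_star, Quaternion.imI_star,
      Quaternion.imJ_star, Quaternion.imK_star]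
    module

/-- the octonion version: a linear map from pairs of quaternions -/
theorem exists_oct (A : UNA V) (h : 8 ≤ finrank ℝ V) :
    ∃ Φ : (ℍ[ℝ] × ℍ[ℝ]) →ₗ[ℝ] V, (∀ x, ‖Φ x‖ ^ 2 = ‖x.1‖ ^ 2 + ‖x.2‖ ^ 2) ∧
      (∀ x y, Φ (x.1 * y.1 - star y.2 * x.2, y.2 * x.1 + x.2 * star y.1) = A.mul (Φ x) (Φ y)) := by
  obtain ⟨φ, φ1, φm, φs⟩ := exists_quat A (by omega)
  set B : Submodule ℝ V := LinearMap.range φ.toLinearMap with hB
  have hmem : ∀ q, φ q ∈ B := fun q => ⟨q, rfl⟩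
  have hfin : finrank ℝ B = 4 := by
    rw [hB, LinearMap.finrank_range_of_inj φ.injective, Quaternion.finrank_eq_four]
  obtain ⟨l, hl1, hl⟩ := exists_unit_orth B (by omega)
  have hB1 : A.one ∈ B := by rw [← φ1]; exact hmem 1
  have hBm : ∀ x ∈ B, ∀ y ∈ B, A.mul x y ∈ B := by
    rintro _ ⟨x, rfl⟩ _ ⟨y, rfl⟩
    show A.mul (φ x) (φ y) ∈ B
    rw [← φm]; exact hmem _
  refine ⟨φ.toLinearMap ∘ₗ LinearMap.fst ℝ _ _ + (A.mul.flip l) ∘ₗ φ.toLinearMap ∘ₗ LinearMap.snd ℝ _ _, ?_, ?_⟩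
  · rintro ⟨a, b⟩
    show ‖φ a + A.mul (φ b) l‖ ^ 2 = ‖a‖ ^ 2 + ‖b‖ ^ 2
    rw [norm_add_sq_real, A.norm_mul, hl1, φ.norm_map, φ.norm_map, real_inner_comm, A.adj_left,
      hl _ (hBm _ (A.conj_mem hB1 (hmem b)) _ (hmem a))]
    ring
  · rintro ⟨a, b⟩ ⟨c, d⟩
    show φ (a * c - star d * b) + A.mul (φ (d * a + b * star c)) l =
      A.mul (φ a + A.mul (φ b) l) (φ c + A.mul (φ d) l)
    rw [map_sub, map_add, φm, φm, φm, φm, φs, φs]
    simp only [map_add, LinearMap.add_apply]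
    rw [A.dbl1 hB1 hBm hl (hmem a) (hmem d), A.dbl2 hB1 hl (hmem b) (hmem c),
      A.dbl3 hB1 hBm hl hl1 (hmem b) (hmem d)]
    abel

end Pool.Agent.Hurw
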